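import Pool.Agent.U731.SP.AtiUp

set_option autoImplicit false

/-!
# The Atiyah conjecture for hermitian matrices of small spectral span

`G` is torsion-free. Let `A` be a hermitian matrix over `ℂG` whose nonzero coefficients, except the
coefficients of the identity on the diagonal, have absolute value at least `δ`, and whose spectrum
on `ℓ²` lies in an interval of length at most `3 √2 δ`. Then all kernel dimensions of complex
matrices with the same support (the diagonal coefficients of the identity being arbitrary) are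
integers, for instance those of `A - λ`. For integral matrices and every larger length there is a
dichotomy.
-/

noncomputable section

namespace Pool.Agent.Results.MP_95030e_al.HermitianSpanKernel

open ComplexConjugate

/-- The kernel of right multiplication by the matrix `A` on `ℓ²(G)^m`. -/
def kernel {G : Type} [Group G] {m n : ℕ} (A : Matrix (Fin m) (Fin n) (G →₀ ℂ)) :
    Set (lp (fun _ : Fin m × G => ℂ) 2) :=
  {x | ∀ (j : Fin n) (g : G),
    ∑ i : Fin m, (A i j).sum (fun h c => x (i, g * h⁻¹) * c) = 0}

open Classical in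
/-- The von Neumann dimension of this kernel: the sum over `i` of one minus the squared distance
from the basis vector at `(i, 1)` to the kernel, that is, the trace of the projection onto the
kernel. -/
def kerDim {G : Type} [Group G] {m n : ℕ} (A : Matrix (Fin m) (Fin n) (G →₀ ℂ)) : ℝ :=
  ∑ i : Fin m, (1 - (Metric.infDist
    (lp.single 2 (i, (1 : G)) (1 : ℂ) : lp (fun _ : Fin m × G => ℂ) 2) (kernel A)) ^ 2)

/-- An integer matrix as a complex matrix. -/
def complex {G : Type} [Group G] {m n : ℕ} (N : Matrix (Fin m) (Fin n) (MonoidAlgebra ℤ G)) :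
    Matrix (Fin m) (Fin n) (G →₀ ℂ) :=
  fun i j => (N i j).coeff.mapRange (fun z : ℤ => (z : ℂ)) Int.cast_zero

/-- `G` is torsion-free. -/
def TorsionFree (G : Type) [Group G] : Prop := ∀ g : G, ∀ n : ℕ, 0 < n → g ^ n = 1 → g = 1

/-- `C` is a class of torsion-free groups which is closed under subgroups and isomorphisms
(injective homomorphisms into a member), direct products of arbitrary families, semidirect products
with `ℤ`, and free products with free groups of finite rank. -/
structure ClosedClass (C : (G : Type) → [Group G] → Prop) : Prop where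
  torsionFree : ∀ (G : Type) [Group G], C G → TorsionFree G
  subgroup : ∀ (G H : Type) [Group G] [Group H] (f : G →* H), Function.Injective f → C H → C G
  product : ∀ (I : Type) (G : I → Type) [∀ i, Group (G i)], (∀ i, C (G i)) → C (∀ i, G i)
  semidirect : ∀ (G : Type) [Group G] (s : MulAut G), C G →
    C (G ⋊[zpowersHom (MulAut G) s] Multiplicative ℤ)
  freeProduct : ∀ (G : Type) [Group G] (m : ℕ), C G → C (Monoid.Coprod G (FreeGroup (Fin m)))

/-- `A` is hermitian: the coefficient of `g⁻¹` in the entry `(j, i)` is the complex conjugate of the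
coefficient of `g` in the entry `(i, j)`. -/
def Hermitian {G : Type} [Group G] {n : ℕ} (A : Matrix (Fin n) (Fin n) (G →₀ ℂ)) : Prop :=
  ∀ i j g, A j i g⁻¹ = conj (A i j g)

/-- The values of the quadratic form `⟨xA, x⟩` on the vectors `x` of `ℓ²(G)^n` with finite support
`S` lie between `a |x|²` and `(a + s) |x|²`; for hermitian `A` this says that the spectrum of right
multiplication by `A` lies in the interval `[a, a + s]`. -/
def SpanLE {G : Type} [Group G] {n : ℕ} (A : Matrix (Fin n) (Fin n) (G →₀ ℂ)) (s : ℝ) : Prop :=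
  ∃ a : ℝ, ∀ (S : Finset (Fin n × G)) (x : Fin n × G → ℂ),
    a * ∑ p ∈ S, ‖x p‖ ^ 2
      ≤ (∑ p ∈ S, ∑ q ∈ S, x p * A p.1 q.1 (p.2⁻¹ * q.2) * conj (x q)).re ∧
    (∑ p ∈ S, ∑ q ∈ S, x p * A p.1 q.1 (p.2⁻¹ * q.2) * conj (x q)).re
      ≤ (a + s) * ∑ p ∈ S, ‖x p‖ ^ 2

/-- 1. Let `G` be torsion-free, `δ > 0` and let `A` be a hermitian complex matrix whose nonzero
coefficients, except those of the identity on the diagonal, have absolute value at least `δ`, and
whose span is at most `3 √2 δ`. Then the kernel dimension of every complex matrix `B` whose support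
is contained in the support of `A` and the identity elements on the diagonal is an integer (for
instance `B = A - λ` for a complex number `λ`).
2. The class of all torsion-free groups is a `ClosedClass`.
3. Let `C` be a `ClosedClass` and `s > 3 √2`. Either all kernel dimensions of all complex matrices
over all groups of `C` are integers, or every real number `r ≥ 0` is the kernel dimension of a
hermitian integer matrix with coefficients `0`, `1`, `-1` and span at most `s` over a finitely
generated group of `C`. -/
theorem result :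
    (∀ (G : Type) [Group G], TorsionFree G →
      ∀ (n : ℕ) (A : Matrix (Fin n) (Fin n) (G →₀ ℂ)) (δ s : ℝ), 0 < δ → Hermitian A →
      (∀ i j g, A i j g ≠ 0 → (i = j ∧ g = 1) ∨ δ ≤ ‖A i j g‖) →
      s ^ 2 ≤ 18 * δ ^ 2 → SpanLE A s → ∀ B : Matrix (Fin n) (Fin n) (G →₀ ℂ),
        (∀ i j g, B i j g ≠ 0 → (i = j ∧ g = 1) ∨ A i j g ≠ 0) → ∃ z : ℤ, kerDim B = z) ∧
    ClosedClass (fun (G : Type) [Group G] => TorsionFree G) ∧
    ∀ C : (G : Type) → [Group G] → Prop, ClosedClass C → ∀ s : ℝ, 0 < s → 18 < s ^ 2 →
      (∀ (G : Type) [Group G], C G → ∀ (m n : ℕ) (A : Matrix (Fin m) (Fin n) (G →₀ ℂ)),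
        ∃ z : ℤ, kerDim A = z) ∨
      ∀ r : ℝ, 0 ≤ r → ∃ (G : Type) (_ : Group G), C G ∧ Group.FG G ∧
        ∃ (k : ℕ) (Q : Matrix (Fin k) (Fin k) (MonoidAlgebra ℤ G)), Hermitian (complex Q) ∧
          (∀ i j g, (Q i j).coeff g = 0 ∨ (Q i j).coeff g = 1 ∨ (Q i j).coeff g = -1) ∧
          SpanLE (complex Q) s ∧ kerDim (complex Q) = r := by
  refine ⟨?_, ?_, ?_⟩
  · intro G _ hG n A δ s hδ hA hbig hs hsp B hB
    have h1 := Pool.Agent.U731.SP.kerDim_span A δ s hδ hA hbig hs hsp B hB
    obtain ⟨z, hz⟩ := Pool.Agent.Y477.AV.Lam_int G 1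
      (fun F hF => (Pool.Agent.W656.VA.isLcm_one hG).2.1 F hF) _ h1
    refine ⟨z, ?_⟩
    rw [← hz]
    simp only [Nat.cast_one, one_mul]
    rfl
  · have h := Pool.Agent.Y477.AV.closedClass_torsionFree
    exact ⟨h.torsionFree, h.subgroup, h.product, h.semidirect, h.freeProduct⟩
  · intro C hC s hs0 hs
    rcases Pool.Agent.U731.SP.hdichotomy
      ⟨hC.torsionFree, hC.subgroup, hC.product, hC.semidirect, hC.freeProduct⟩ s hs0 hs with h | h
    · exact Or.inl h
    · right
      intro r hr
      obtain ⟨G, i1, h1, h2, k, Q, h3, h4, h5, h6⟩ := h r hr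
      refine ⟨G, i1, h1, h2, k, Q, ?_, h4, Pool.Agent.U731.SP.spanC_of_int Q s h5, h6⟩
      intro i j g
      change (((Q j i).coeff g⁻¹ : ℤ) : ℂ) = conj (((Q i j).coeff g : ℤ) : ℂ)
      rw [h3 i j g]
      simp

end Pool.Agent.Results.MP_95030e_al.HermitianSpanKernel
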