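import Pool.Agent.U700.IB4

set_option autoImplicit false

noncomputable section

open MeasureTheory

namespace Pool.Agent.Results.MP_95030e_al.IntervalAlternative

/-- The kernel of right multiplication by the matrix `A` on `ℓ²(G)^m`. -/
def kernel {G : Type} [Group G] {m n : ℕ} (A : Matrix (Fin m) (Fin n) (G →₀ ℂ)) :
    Set (lp (fun _ : Fin m × G => ℂ) 2) :=
  {x | ∀ (j : Fin n) (g : G),
    ∑ i : Fin m, (A i j).sum (fun h c => x (i, g * h⁻¹) * c) = 0}

open Classical in
/-- The von Neumann dimension of this kernel: the sum over `i` of one minus the squared distance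
from the basis vector at `(i, 1)` to the kernel, that is, the trace of the projection onto the
kernel. -/
def kerDim {G : Type} [Group G] {m n : ℕ} (A : Matrix (Fin m) (Fin n) (G →₀ ℂ)) : ℝ :=
  ∑ i : Fin m, (1 - (Metric.infDist
    (lp.single 2 (i, (1 : G)) (1 : ℂ) : lp (fun _ : Fin m × G => ℂ) 2) (kernel A)) ^ 2)

/-- `A` is a matrix over `ℤ[G]`. -/
def Integral {G : Type} [Group G] {m n : ℕ} (A : Matrix (Fin m) (Fin n) (G →₀ ℂ)) : Prop :=
  ∀ i j g, ∃ a : ℤ, A i j g = a

/-- The matrix `A + g B`. -/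
def family {G : Type} [Group G] {m n : ℕ} (A B : Matrix (Fin m) (Fin n) (G →₀ ℂ)) (g : G) :
    Matrix (Fin m) (Fin n) (G →₀ ℂ) :=
  Matrix.of fun i j => A i j + (B i j).mapDomain (fun h => g * h)

/-- `A` is a matrix over `ℤ[G]` with at most `N` rows, at most `N` columns and entries of
`ℓ¹`-norm at most `N`. -/
def Bounded {G : Type} [Group G] (N : ℕ) {m n : ℕ} (A : Matrix (Fin m) (Fin n) (G →₀ ℂ)) : Prop :=
  m ≤ N ∧ n ≤ N ∧ Integral A ∧ ∀ i j, (A i j).sum (fun _ c => ‖c‖) ≤ N

/-- The kernel dimensions of the matrices over `ℤ[G]` bounded by `N`. -/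
def dimsOf (G : Type) [Group G] (N : ℕ) : Set ℝ :=
  {v | ∃ (m n : ℕ) (A : Matrix (Fin m) (Fin n) (G →₀ ℂ)), Bounded N A ∧ kerDim A = v}

/-- The kernel dimensions of the matrices over `ℤ[G]` bounded by `N`, for all groups `G` in the
class `C`. -/
def dims (C : (G : Type) → [Group G] → Prop) (N : ℕ) : Set ℝ :=
  {v | ∃ (G : Type) (_ : Group G), C G ∧ v ∈ dimsOf G N}

/-- All kernel dimensions of matrices over `ℂ[G]`, `G` in the class `C`, are integers. -/
def Atiyah (C : (G : Type) → [Group G] → Prop) : Prop :=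
  ∀ (G : Type) [Group G], C G → ∀ (m n : ℕ) (A : Matrix (Fin m) (Fin n) (G →₀ ℂ)),
    ∃ z : ℤ, kerDim A = z

/-- `G` is generated by two elements. -/
def TwoGenerated (G : Type) [Group G] : Prop := ∃ a b : G, Subgroup.closure {a, b} = ⊤

/-- `G` is torsion-free. -/
def TorsionFree (G : Type) [Group G] : Prop := ∀ g : G, ∀ n : ℕ, 0 < n → g ^ n = 1 → g = 1

/-- Normalised Hamming distance: the proportion of points where two permutations differ. -/
def hamm {n : ℕ} (σ τ : Equiv.Perm (Fin n)) : ℝ :=
  ((Finset.univ.filter fun i => σ i ≠ τ i).card : ℝ) / n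

/-- `G` is sofic. -/
def IsSofic (G : Type) [Group G] : Prop :=
  ∀ A : Finset G, (1 : G) ∈ A → ∀ ε : ℝ, 0 < ε →
    ∃ n : ℕ, 1 ≤ n ∧ ∃ φ : G → Equiv.Perm (Fin n),
      φ 1 = 1 ∧
      (∀ a ∈ A, ∀ b ∈ A, a * b ∈ A → hamm (φ (a * b)) (φ a * φ b) < ε) ∧
      ∀ a ∈ A, a ≠ 1 → 1 - ε ≤ hamm (φ a) 1

/-- `C` is a class of torsion-free groups which is closed under subgroups, direct products,
semidirect products with `ℤ` and free products with free groups of finite rank. -/
structure ClosedClass (C : (G : Type) → [Group G] → Prop) : Prop where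
  torsionFree : ∀ (G : Type) [Group G], C G → TorsionFree G
  subgroup : ∀ (G H : Type) [Group G] [Group H] (f : G →* H), Function.Injective f → C H → C G
  product : ∀ (I : Type) (G : I → Type) [∀ i, Group (G i)], (∀ i, C (G i)) → C (∀ i, G i)
  semidirect : ∀ (G : Type) [Group G] (s : MulAut G), C G →
    C (G ⋊[zpowersHom (MulAut G) s] Multiplicative ℤ)
  freeProduct : ∀ (G : Type) [Group G] (m : ℕ), C G → C (Monoid.Coprod G (FreeGroup (Fin m)))

/-- Moreover the groups of `C` are sofic and `C` is closed under ultraproducts of sequences of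
groups: if `f` is a surjective homomorphism from the direct product of groups `G i` of `C` to a
group `H` whose kernel consists of the sequences which are trivial at almost every `i`, with respect
to an ultrafilter `U`, then `H` belongs to `C`. -/
structure SoficClass (C : (G : Type) → [Group G] → Prop) : Prop extends ClosedClass C where
  sofic : ∀ (G : Type) [Group G], C G → IsSofic G
  ultraproduct : ∀ (U : Ultrafilter ℕ) (G : ℕ → Type) [∀ i, Group (G i)] (H : Type) [Group H]
    (f : (∀ i, G i) →* H), Function.Surjective f →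
      (∀ x, f x = 1 ↔ ∀ᶠ i in (U : Filter ℕ), x i = 1) → (∀ i, C (G i)) → C H

variable {X : Type} [Fintype X] [DecidableEq X]

/-- The `m × n` matrix of blocks of size `X × X` whose block at `(i, j)` is the sum over `l` of
`c i j l` times the permutation matrix of `σ l`. -/
def blocks {m n k : ℕ} (c : Fin m → Fin n → Fin k → ℤ) (σ : Fin k → Equiv.Perm X) :
    Matrix (Fin m × X) (Fin n × X) ℂ :=
  Matrix.of fun p q => ∑ l, (c p.1 q.1 l : ℂ) * if p.2 = σ l q.2 then 1 else 0

/-- The normalised nullity of this matrix: the dimension of its kernel, that is, the number of its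
columns minus its rank, divided by the number of points of `X`. -/
def nullity {m n k : ℕ} (c : Fin m → Fin n → Fin k → ℤ) (σ : Fin k → Equiv.Perm X) : ℝ :=
  ((n : ℝ) * Fintype.card X - (blocks c σ).rank) / Fintype.card X

/-- The number of points moved by `τ`. -/
def moved (τ : Equiv.Perm X) : ℕ := (Finset.univ.filter fun x => τ x ≠ x).card

/-- The number of points fixed by `τ`. -/
def fixed (τ : Equiv.Perm X) : ℕ := (Finset.univ.filter fun x => τ x = x).card

/-- Up to the precision `1 / N`, the permutations `σ l` look like the generators of a torsion-free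
group which acts freely: every word `w` of length at most `N` in them moves at most the proportion
`1 / N` of the points, or each of its powers `w ^ j`, `1 ≤ j ≤ N`, fixes at most the proportion
`1 / N` of the points. -/
def AlmostFree {k : ℕ} (N : ℕ) (σ : Fin k → Equiv.Perm X) : Prop :=
  ∀ w : FreeGroup (Fin k), w.norm ≤ N → N * moved (FreeGroup.lift σ w) ≤ Fintype.card X ∨
    ∀ j, 1 ≤ j → j ≤ N → N * fixed (FreeGroup.lift σ (w ^ j)) ≤ Fintype.card X

/-! ### Transfer -/

open Pool.Agent Pool.Agent.U700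

theorem nullity_eq {m n k : ℕ} (c : Fin m → Fin n → Fin k → ℤ) (σ : Fin k → Equiv.Perm X) :
    nullity c σ = NI.nu (FreeGroup.lift σ) (NI.Yc c) := by
  have h1 : blocks c σ = NI.Mx (FreeGroup.lift σ) (NI.Yc c) := by
    rw [NI.Mx_Yc]
    ext p q
    simp only [blocks, Matrix.of_apply, FreeGroup.lift_apply_of]
  unfold nullity NI.nu
  rw [h1, Fintype.card_fin]

theorem kerDim_eq {G : Type} [Group G] {m n : ℕ} (A : Matrix (Fin m) (Fin n) (G →₀ ℂ)) :
    kerDim A = H80R2.BC.vdim (H80R2.BC.kerA (W656.VA.cv A)) := W656.VA.kerDim_eq A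

theorem inv_inv_fun (G : Type) [Group G] : ((fun g : G => g⁻¹) ∘ fun g : G => g⁻¹) = id := by
  funext g
  simp

theorem dimsOf_eq (G : Type) [Group G] (N : ℕ) : dimsOf G N = NI.D1 G N := by
  ext v
  constructor
  · rintro ⟨m, n, A, ⟨hm, hn, hA, hA2⟩, hv⟩
    refine ⟨n, m, W656.VA.cv A, hn, hm, fun j i => ⟨fun g => ?_, ?_⟩, ?_⟩
    · have h1 := W656.VA.coef_mapDomain (R := (⊥ : Subring ℂ)) (fun g : G => g⁻¹) (A i j)
        (fun x => by
          obtain ⟨a, ha⟩ := hA i j x
          exact Subring.mem_bot.2 ⟨a, ha.symm⟩) g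
      obtain ⟨a, ha⟩ := Subring.mem_bot.1 h1
      exact ⟨a, ha.symm⟩
    · exact (IB.l1_mapDomain (fun g : G => g⁻¹) (A i j)).trans (hA2 i j)
    · rw [← kerDim_eq]
      exact hv
  · rintro ⟨m, n, A, hm, hn, hA, hv⟩
    let B : Matrix (Fin n) (Fin m) (G →₀ ℂ) :=
      Matrix.of fun i j => (A j i).mapDomain (fun g => g⁻¹)
    have hB : W656.VA.cv B = A := by
      funext j i
      change ((A j i).mapDomain (fun g : G => g⁻¹)).mapDomain (fun g : G => g⁻¹) = A j i
      rw [← Finsupp.mapDomain_comp, inv_inv_fun, Finsupp.mapDomain_id]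
    refine ⟨n, m, B, ⟨hn, hm, fun i j g => ?_, fun i j => ?_⟩, ?_⟩
    · have h1 := W656.VA.coef_mapDomain (R := (⊥ : Subring ℂ)) (fun g : G => g⁻¹) (A j i)
        (fun x => by
          obtain ⟨a, ha⟩ := (hA j i).1 x
          exact Subring.mem_bot.2 ⟨a, ha.symm⟩) g
      obtain ⟨a, ha⟩ := Subring.mem_bot.1 h1
      exact ⟨a, ha.symm⟩
    · exact (IB.l1_mapDomain (fun g : G => g⁻¹) (A j i)).trans (hA j i).2
    · rw [kerDim_eq, hB]
      exact hv

theorem dims_eq (C : (G : Type) → [Group G] → Prop) (N : ℕ) : dims C N = NI.D2 C N := by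
  ext v
  constructor
  · rintro ⟨G, iG, hG, hv⟩
    rw [dimsOf_eq] at hv
    obtain ⟨m, n, A, h⟩ := hv
    exact ⟨G, iG, hG, m, n, A, h⟩
  · rintro ⟨G, iG, hG, m, n, A, h⟩
    refine ⟨G, iG, hG, ?_⟩
    rw [dimsOf_eq]
    exact ⟨m, n, A, h⟩

theorem closed_iff {C : (G : Type) → [Group G] → Prop} (h : ClosedClass C) :
    AllOrNothing.ClosedClass C :=
  ⟨h.torsionFree, h.subgroup, h.product, h.semidirect, h.freeProduct⟩

theorem closed_iff' {C : (G : Type) → [Group G] → Prop} (h : AllOrNothing.ClosedClass C) :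
    ClosedClass C :=
  ⟨h.torsionFree, h.subgroup, h.product, h.semidirect, h.freeProduct⟩

theorem sofic_iff {C : (G : Type) → [Group G] → Prop} (h : SoficClass C) : NI.Cl C where
  toClosedClass := closed_iff h.toClosedClass
  sofic := h.sofic
  ultra := h.ultraproduct

theorem sofic_iff' {C : (G : Type) → [Group G] → Prop} (h : NI.Cl C) : SoficClass C where
  toClosedClass := closed_iff' h.toClosedClass
  sofic := h.sofic
  ultraproduct := h.ultra

theorem dimsOf_subset {C : (G : Type) → [Group G] → Prop} {G : Type} [Group G] (hG : C G)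
    (N : ℕ) : dimsOf G N ⊆ dims C N := fun _ hv => ⟨G, inferInstance, hG, hv⟩

theorem dims_Icc (C : (G : Type) → [Group G] → Prop) (N : ℕ) : dims C N ⊆ Set.Icc 0 N := by
  rw [dims_eq]
  exact NI.D2_Icc C N

/-- if all values are integers there are finitely many -/
theorem finite_of {S : Set ℝ} {N : ℕ} (hS : S ⊆ Set.Icc 0 N) (h : ∀ v ∈ S, ∃ z : ℤ, v = z) :
    S.Finite := by
  refine ((Set.finite_Icc (0 : ℤ) N).image (fun z : ℤ => (z : ℝ))).subset ?_
  intro v hv
  obtain ⟨z, rfl⟩ := h v hv
  have h1 := hS hv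
  exact ⟨z, ⟨by exact_mod_cast h1.1, by exact_mod_cast h1.2⟩, rfl⟩

/-! ### Families -/

theorem cv_of {G : Type} [Group G] {m n : ℕ} (X : H80R2.BC.GMat (Fin m) (Fin n) G) :
    W656.VA.cv (Matrix.of fun i j => (X j i).mapDomain (fun g => g⁻¹)) = X := by
  funext j i
  change ((X j i).mapDomain (fun g : G => g⁻¹)).mapDomain (fun g : G => g⁻¹) = X j i
  rw [← Finsupp.mapDomain_comp, inv_inv_fun, Finsupp.mapDomain_id]

theorem cv_family {G : Type} [Group G] {m n : ℕ} (A B : Matrix (Fin m) (Fin n) (G →₀ ℂ))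
    (g : G) : W656.VA.cv (family A B g) = IB.aff (W656.VA.cv A) (W656.VA.cv B) g⁻¹ := by
  funext j i
  change (A i j + (B i j).mapDomain (fun h => g * h)).mapDomain (fun g : G => g⁻¹) =
    (A i j).mapDomain (fun g : G => g⁻¹) +
      ((B i j).mapDomain (fun g : G => g⁻¹)).mapDomain (fun h => h * g⁻¹)
  rw [Finsupp.mapDomain_add, ← Finsupp.mapDomain_comp, ← Finsupp.mapDomain_comp]
  congr 2
  funext h
  exact mul_inv_rev g h

theorem integral_of {G : Type} [Group G] {m n : ℕ} (X : H80R2.BC.GMat (Fin m) (Fin n) G)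
    (hX : H80R2.BC.Coef (⊥ : Subring ℂ) X) :
    Integral (Matrix.of fun i j => (X j i).mapDomain (fun g => g⁻¹)) := by
  intro i j g
  have h1 := W656.VA.coef_mapDomain (R := (⊥ : Subring ℂ)) (fun g : G => g⁻¹) (X j i)
    (fun x => hX j i x) g
  obtain ⟨a, ha⟩ := Subring.mem_bot.1 h1
  exact ⟨a, ha.symm⟩

/-- one group and one family with all the numbers in the unit interval -/
theorem all_family {C : (G : Type) → [Group G] → Prop} (hC : ClosedClass C) (h : ¬ Atiyah C) :
    ∃ (V : Type) (_ : Group V), C V ∧ ∃ (m n : ℕ) (A B : Matrix (Fin m) (Fin n) (V →₀ ℂ)),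
      Integral A ∧ Integral B ∧ ∀ r : ℝ, 0 ≤ r → r ≤ 1 → ∃ g : V, kerDim (family A B g) = r := by
  obtain ⟨V, iV, hV, m, n, X, Y, hX, hY, hr⟩ := IB.all_family (closed_iff hC) h
  refine ⟨V, iV, hV, n, m, _, _, integral_of X hX, integral_of Y hY, fun r hr0 hr1 => ?_⟩
  obtain ⟨g, hg⟩ := hr r hr0 hr1
  refine ⟨g⁻¹, ?_⟩
  rw [kerDim_eq, cv_family, cv_of, cv_of, inv_inv]
  exact hg

/-- one group with two generators and one family with all the rational numbers in the unit
interval -/
theorem rational_family {C : (G : Type) → [Group G] → Prop} (hC : ClosedClass C)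
    (h : ¬ Atiyah C) :
    ∃ (V : Type) (_ : Group V), C V ∧ TwoGenerated V ∧
      ∃ (m n : ℕ) (A B : Matrix (Fin m) (Fin n) (V →₀ ℂ)),
        Integral A ∧ Integral B ∧ ∀ r : ℚ, 0 ≤ r → r ≤ 1 → ∃ g : V, kerDim (family A B g) = r := by
  obtain ⟨V, iV, hV, hab, m, n, X, Y, hX, hY, hr⟩ := IB.rational_family (closed_iff hC) h
  refine ⟨V, iV, hV, hab, n, m, _, _, integral_of X hX, integral_of Y hY, fun r hr0 hr1 => ?_⟩
  obtain ⟨g, hg⟩ := hr r hr0 hr1
  refine ⟨g⁻¹, ?_⟩
  rw [kerDim_eq, cv_family, cv_of, cv_of, inv_inv]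
  exact hg

theorem l1_family {G : Type} [Group G] {m n : ℕ} (A B : Matrix (Fin m) (Fin n) (G →₀ ℂ))
    (hA : Integral A) (hB : Integral B) : ∃ N : ℕ, ∀ g, Bounded N (family A B g) := by
  obtain ⟨N, hN⟩ := exists_nat_ge (∑ i, ∑ j, (IB.l1 (A i j) + IB.l1 (B i j)))
  refine ⟨m + n + N, fun g => ⟨by omega, by omega, ?_, fun i j => ?_⟩⟩
  · intro i j x
    obtain ⟨a, ha⟩ := hA i j x
    have h1 := W656.VA.coef_mapDomain (R := (⊥ : Subring ℂ)) (fun h : G => g * h) (B i j)
      (fun x => by
        obtain ⟨b, hb⟩ := hB i j x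
        exact Subring.mem_bot.2 ⟨b, hb.symm⟩) x
    obtain ⟨b, hb⟩ := Subring.mem_bot.1 h1
    refine ⟨a + b, ?_⟩
    change (A i j + (B i j).mapDomain (fun h => g * h)) x = _
    rw [Finsupp.add_apply, ha, ← hb]
    push_cast
    rfl
  · change IB.l1 (A i j + (B i j).mapDomain (fun h => g * h)) ≤ _
    have h1 := IB.l1_add (A i j) ((B i j).mapDomain (fun h => g * h))
    have h2 := IB.l1_mapDomain (fun h => g * h) (B i j)
    have h3 : IB.l1 (A i j) + IB.l1 (B i j) ≤ ∑ j, (IB.l1 (A i j) + IB.l1 (B i j)) :=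
      Finset.single_le_sum (f := fun j => IB.l1 (A i j) + IB.l1 (B i j))
        (fun _ _ => add_nonneg (IB.l1_nonneg _) (IB.l1_nonneg _)) (Finset.mem_univ j)
    have h4 : ∑ j, (IB.l1 (A i j) + IB.l1 (B i j)) ≤
        ∑ i, ∑ j, (IB.l1 (A i j) + IB.l1 (B i j)) :=
      Finset.single_le_sum (f := fun i => ∑ j, (IB.l1 (A i j) + IB.l1 (B i j)))
        (fun _ _ => Finset.sum_nonneg fun _ _ => add_nonneg (IB.l1_nonneg _) (IB.l1_nonneg _))
        (Finset.mem_univ i)
    have h5 : (0 : ℝ) ≤ m := Nat.cast_nonneg _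
    have h6 : (0 : ℝ) ≤ n := Nat.cast_nonneg _
    push_cast
    linarith

theorem half_ne (z : ℤ) : (z : ℝ) ≠ 1 / 2 := by
  intro hz
  have h1 : (2 * z : ℝ) = 1 := by linarith
  have h2 : 2 * z = 1 := by exact_mod_cast h1
  omega

/-- **The Atiyah conjecture for torsion-free groups: kernel dimensions for matrices of bounded
complexity.**

(a) Let `C` be a class of torsion-free groups which is closed under subgroups, direct products,
semidirect products with `ℤ` and free products with free groups of finite rank, for example the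
class of all torsion-free groups. The following are equivalent.

1. The Atiyah conjecture over `ℂ` holds for all groups of `C`.
2. For each `N` the set `dims C N` of the kernel dimensions of matrices over `ℤ[G]`, `G` in `C`,
   with at most `N` rows and columns and entries of `ℓ¹`-norm at most `N`, is finite.
3. For each `N` this set has Lebesgue measure zero.
4. For each group `G` in `C` and all matrices `A`, `B` of the same size over `ℤ[G]`, some real
   number in `[0, 1]` is not the kernel dimension of a matrix `A + g B` with `g` in `G`.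
5. For each group `G` in `C` generated by two elements and all matrices `A`, `B` of the same size
   over `ℤ[G]`, some rational number in `[0, 1]` is not the kernel dimension of a matrix `A + g B`
   with `g` in `G`.

So if the conjecture fails for one torsion-free group, there are a torsion-free group `G` and two
matrices `A`, `B` over `ℤ[G]` such that the kernel dimension of `A + g B`, where `g` runs over `G`,
takes all real values in `[0, 1]`, and there are a torsion-free group with two generators and two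
such matrices for which it takes all rational values in `[0, 1]`.

(b) Let moreover `C` be closed under ultraproducts and consist of sofic groups, for example the
class of all torsion-free sofic groups. Then there is one group `V` in `C`, generated by two
elements, such that for every `N` the set `dims C N` is closed and is the closure of the set
`dimsOf V N` of the kernel dimensions for `V` alone. The following are equivalent.

1. The Atiyah conjecture over `ℂ` holds for all groups of `C`.
2. The Atiyah conjecture over `ℤ` holds for `V`.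
3. For each `N` the positive elements of `dimsOf V N` are bounded below by some `ε > 0`.

(c) The Atiyah conjecture over `ℂ` holds for all torsion-free sofic groups if and only if for all
integers `c i j l` there are a real number `r` in `[0, 1]`, `ε > 0` and `N` such that for all
permutations `σ l` of a finite set which are almost free up to `1 / N`, the normalised nullity of
the matrix with blocks `∑ l, c i j l • P (σ l)` differs from `r` by at least `ε`. -/
theorem result :
    (ClosedClass (fun (G : Type) [Group G] => TorsionFree G) ∧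
      ∀ C : (G : Type) → [Group G] → Prop, ClosedClass C → List.TFAE [
        Atiyah C,
        ∀ N, (dims C N).Finite,
        ∀ N, volume (dims C N) = 0,
        ∀ (G : Type) [Group G], C G → ∀ (m n : ℕ) (A B : Matrix (Fin m) (Fin n) (G →₀ ℂ)),
          Integral A → Integral B →
            ∃ r : ℝ, 0 ≤ r ∧ r ≤ 1 ∧ ∀ g : G, kerDim (family A B g) ≠ r,
        ∀ (G : Type) [Group G], C G → TwoGenerated G →
          ∀ (m n : ℕ) (A B : Matrix (Fin m) (Fin n) (G →₀ ℂ)), Integral A → Integral B →
            ∃ r : ℚ, 0 ≤ r ∧ r ≤ 1 ∧ ∀ g : G, kerDim (family A B g) ≠ r]) ∧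
    (SoficClass (fun (G : Type) [Group G] => TorsionFree G ∧ IsSofic G) ∧
      ∀ C : (G : Type) → [Group G] → Prop, SoficClass C →
        ∃ (V : Type) (_ : Group V), C V ∧ TwoGenerated V ∧
          (∀ N, dims C N = closure (dimsOf V N)) ∧ List.TFAE [
            Atiyah C,
            ∀ (m n : ℕ) (A : Matrix (Fin m) (Fin n) (V →₀ ℂ)), Integral A →
              ∃ z : ℤ, kerDim A = z,
            ∀ N, ∃ ε : ℝ, 0 < ε ∧ ∀ v ∈ dimsOf V N, v = 0 ∨ ε ≤ v]) ∧
    (Atiyah (fun (G : Type) [Group G] => TorsionFree G ∧ IsSofic G) ↔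
      ∀ (m n k : ℕ) (c : Fin m → Fin n → Fin k → ℤ), ∃ r : ℝ, 0 ≤ r ∧ r ≤ 1 ∧
        ∃ ε : ℝ, 0 < ε ∧ ∃ N : ℕ,
          ∀ (X : Type) [Fintype X] [DecidableEq X] [Nonempty X] (σ : Fin k → Equiv.Perm X),
            AlmostFree N σ → ε ≤ |nullity c σ - r|) := by
  refine ⟨⟨closed_iff' AllOrNothing.closedClass_torsionFree, fun C hC => ?_⟩,
    ⟨sofic_iff' NI.cl_sofic, fun C hC => ?_⟩, ?_⟩
  · tfae_have 1 → 2 := by
      intro h N
      refine finite_of (dims_Icc C N) ?_
      rintro v ⟨G, iG, hG, m, n, A, _, rfl⟩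
      exact h G hG m n A
    tfae_have 2 → 3 := fun h N => (h N).measure_zero volume
    tfae_have 3 → 4 := by
      intro h G _ hG m n A B hA hB
      by_contra hcon
      push Not at hcon
      obtain ⟨N, hN⟩ := l1_family A B hA hB
      have h1 : Set.Icc (0 : ℝ) 1 ⊆ dims C N := by
        rintro r ⟨hr0, hr1⟩
        obtain ⟨g, hg⟩ := hcon r hr0 hr1
        exact ⟨G, inferInstance, hG, m, n, family A B g, hN g, hg⟩
      have h2 := measure_mono_null h1 (h N)
      rw [Real.volume_Icc] at h2
      norm_num at h2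
    tfae_have 4 → 1 := by
      intro h
      by_contra hno
      obtain ⟨V, iV, hV, m, n, A, B, hA, hB, hr⟩ := all_family hC hno
      obtain ⟨r, hr0, hr1, hne⟩ := h V hV m n A B hA hB
      obtain ⟨g, hg⟩ := hr r hr0 hr1
      exact hne g hg
    tfae_have 1 → 5 := by
      intro h G _ hG _ m n A B _ _
      refine ⟨1 / 2, by norm_num, by norm_num, fun g hg => ?_⟩
      obtain ⟨z, hz⟩ := h G hG m n (family A B g)
      rw [hg] at hz
      refine half_ne z ?_
      rw [← hz]
      push_cast
      rfl
    tfae_have 5 → 1 := by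
      intro h
      by_contra hno
      obtain ⟨V, iV, hV, hab, m, n, A, B, hA, hB, hr⟩ := rational_family hC hno
      obtain ⟨r, hr0, hr1, hne⟩ := h V hV hab m n A B hA hB
      obtain ⟨g, hg⟩ := hr r hr0 hr1
      exact hne g hg
    tfae_finish
  · obtain ⟨V, iV, hV, hab, hd⟩ := NI.universal (sofic_iff hC)
    have hcl : ∀ N, dims C N = closure (dimsOf V N) := by
      intro N
      rw [dims_eq, dimsOf_eq]
      exact NI.D2_closure (sofic_iff hC) hV hd N
    refine ⟨V, iV, hV, hab, hcl, ?_⟩
    tfae_have 1 → 2 := fun h m n A _ => h V hV m n A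
    tfae_have 2 → 3 := by
      intro h N
      refine ⟨1, zero_lt_one, ?_⟩
      rintro v ⟨m, n, A, hA, rfl⟩
      obtain ⟨z, hz⟩ := h m n A hA.2.2.1
      have h1 := dims_Icc C N ⟨V, iV, hV, m, n, A, hA, rfl⟩
      rw [hz] at h1 ⊢
      have h2 : 0 ≤ z := by exact_mod_cast h1.1
      rcases h2.eq_or_lt with h3 | h3
      · left
        rw [← h3, Int.cast_zero]
      · right
        exact_mod_cast h3
    tfae_have 3 → 1 := by
      intro h
      by_contra hno
      obtain ⟨W, iW, hW, m, n, A, B, hA, hB, hr⟩ := all_family hC.toClosedClass hno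
      obtain ⟨N, hN⟩ := l1_family A B hA hB
      obtain ⟨ε, hε, hgap⟩ := h N
      set r : ℝ := min (ε / 2) 1 with hrdef
      have hr0 : 0 < r := lt_min (by linarith) one_pos
      obtain ⟨g, hg⟩ := hr r hr0.le (min_le_right _ _)
      have h1 : r ∈ dims C N := ⟨W, iW, hW, m, n, family A B g, hN g, hg⟩
      rw [hcl N] at h1
      have hr2 : r ≤ ε / 2 := min_le_left _ _
      obtain ⟨v, hv, hvr⟩ := Metric.mem_closure_iff.1 h1 (r / 2) (by linarith)
      rw [Real.dist_eq, abs_lt] at hvr
      rcases hgap v hv with h2 | h2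
      · rw [h2] at hvr
        linarith [hvr.2]
      · linarith [hvr.1]
    tfae_finish
  · constructor
    · intro h m n k c
      refine ⟨1 / 2, by norm_num, by norm_num, ?_⟩
      by_contra hcon
      have h1 : (1 / 2 : ℝ) ∈ NI.dimsC (fun (G : Type) [Group G] =>
          AllOrNothing.TorsionFree G ∧ H21R2.IsSofic G) c := by
        rw [NI.mem_dimsT_iff]
        intro ε hε N
        by_contra hno
        apply hcon
        refine ⟨ε, hε, N, fun X i1 i2 i3 σ hσ => ?_⟩
        by_contra hlt
        push Not at hlt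
        rw [nullity_eq] at hlt
        exact hno ⟨X, i1, i2, i3, σ, hσ, hlt⟩
      obtain ⟨G, iG, hG, g, hg⟩ := h1
      have hcv := cv_of (NI.PM c g)
      obtain ⟨z, hz⟩ := h G hG n m (Matrix.of fun i j => (NI.PM c g j i).mapDomain (fun g => g⁻¹))
      rw [kerDim_eq, hcv, hg] at hz
      exact half_ne z hz.symm
    · intro h
      by_contra hno
      obtain ⟨m, n, k, c, hc⟩ := NI.all_small NI.cl_sofic hno
      obtain ⟨r, hr0, hr1, ε, hε, N, hN⟩ := h m n k c
      obtain ⟨X, i1, i2, i3, σ, hσ, hlt⟩ := (NI.mem_dimsT_iff c r).1 (hc ⟨hr0, hr1⟩) ε hε N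
      have h1 := hN X σ hσ
      rw [nullity_eq] at h1
      exact absurd hlt (not_lt.2 h1)

end Pool.Agent.Results.MP_95030e_al.IntervalAlternative
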