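import Pool.Agent.N309.LO.Rank

set_option autoImplicit false

/-!
# The Atiyah conjecture and leading parts of matrices

Let a group `G` act on a totally ordered set `X` by order preserving maps, let `A` be a matrix over the
complex group ring of `G`, and let points `w i`, `u j` of `X` be given for its rows and columns such
that `h • u j ≤ w i` for all `h` in the support of the entry `A i j`. The leading part of `A` consists
of the terms with `h • u j = w i`. Its kernel on `ℓ²` is at least as large as the kernel of `A`, in the
sense of von Neumann dimensions. For a left-ordered group the leading part is a matrix of complex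
numbers, up to multiplications of the rows and columns by elements of the group; so the rank of `A` is
at least the rank of this complex matrix, and the dimension of the kernel is the integer
`max(m - n, 0)` if the complex matrix has the maximal rank.
-/

universe u v

namespace Pool.Agent.Results.MP_95030e_al.LeadingParts

/-- The kernel of right multiplication by the matrix `A` over the complex group ring on row vectors
of length `m` over `ℓ²(G)`: all square-summable `x` with `x A = 0`. -/
def kernel {G : Type u} [Group G] {m n : ℕ} (A : Matrix (Fin m) (Fin n) (G →₀ ℂ)) :
    Set (lp (fun _ : Fin m × G => ℂ) 2) :=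
  {x | ∀ (j : Fin n) (g : G),
    ∑ k : Fin m, ∑ h ∈ (A k j).support, x (k, g * h⁻¹) * A k j h = 0}

open Classical in
/-- The von Neumann dimension of that kernel: the sum over `i` of one minus the square of the
distance from the basis vector at `(i, 1)` to the kernel, that is, the sum of the squared lengths
of the projections of these vectors to the kernel. -/
noncomputable def kerDim {G : Type u} [Group G] {m n : ℕ}
    (A : Matrix (Fin m) (Fin n) (G →₀ ℂ)) : ℝ :=
  ∑ i : Fin m, (1 - Metric.infDist
    (lp.single (E := fun _ : Fin m × G => ℂ) 2 (i, (1 : G)) (1 : ℂ)) (kernel A) ^ 2)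

/-- `B` is the leading part of `A` for the points `w i` of the rows and `u j` of the columns: all
`h` in the support of `A i j` have `h • u j ≤ w i`, the coefficients of `B i j` and `A i j` at `h` are
equal if `h • u j = w i`, and the coefficient of `B i j` at `h` is zero otherwise. -/
def IsLeadingPart {G : Type u} [Group G] {X : Type v} [MulAction G X] [LinearOrder X] {m n : ℕ}
    (w : Fin m → X) (u : Fin n → X) (A B : Matrix (Fin m) (Fin n) (G →₀ ℂ)) : Prop :=
  (∀ i j h, A i j h ≠ 0 → h • u j ≤ w i) ∧
    (∀ i j h, h • u j = w i → B i j h = A i j h) ∧
    ∀ i j h, h • u j ≠ w i → B i j h = 0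

/-- The matrix of the leading coefficients of `A`, for elements `w i` of the rows and `u j` of the
columns of a left-ordered group: the entry at `(i, j)` is the coefficient of `A i j` at the only `h`
with `h * u j = w i`. -/
def leadingMatrix {G : Type u} [Group G] {m n : ℕ} (w : Fin m → G) (u : Fin n → G)
    (A : Matrix (Fin m) (Fin n) (G →₀ ℂ)) : Matrix (Fin m) (Fin n) ℂ :=
  Matrix.of fun i j => A i j (w i * (u j)⁻¹)

open Pool.Agent.N309.LO

theorem kerDim_eq {G : Type u} [Group G] {m n : ℕ} (A : Matrix (Fin m) (Fin n) (G →₀ ℂ)) :
    kerDim A = W649.ZL.kerDimM A := by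
  unfold kerDim W649.ZL.kerDimM
  congr!

/-- **Leading parts.** (1) Let the group `G` act on the totally ordered set `X` by order preserving
maps, and let `B` be the leading part of the matrix `A` over the complex group ring of `G`, for some
points of `X` chosen for the rows and for the columns. Then the von Neumann dimension of the kernel of
`A` is at most that of `B`.
(2) Let `G` have a total order which is invariant under left multiplications, let `A` be an `m × n`
matrix over the complex group ring of `G`, and let elements `w i`, `u j` of `G` be given such that
`h * u j ≤ w i` for all `h` in the support of `A i j`. Then the von Neumann rank `m - kerDim A` is at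
least the rank of the complex matrix `Λ` of the leading coefficients; and if `Λ` has rank `min(m, n)`,
the dimension of the kernel of `A` is the integer `m - min(m, n)`. -/
theorem result :
    (∀ (G : Type u) [Group G] (X : Type v) [MulAction G X] [LinearOrder X],
      (∀ (g : G) (a b : X), a ≤ b → g • a ≤ g • b) →
      ∀ (m n : ℕ) (w : Fin m → X) (u : Fin n → X) (A B : Matrix (Fin m) (Fin n) (G →₀ ℂ)),
        IsLeadingPart w u A B → kerDim A ≤ kerDim B) ∧
    ∀ (G : Type u) [Group G] [LinearOrder G], (∀ g a b : G, a ≤ b → g * a ≤ g * b) →
      ∀ (m n : ℕ) (w : Fin m → G) (u : Fin n → G) (A : Matrix (Fin m) (Fin n) (G →₀ ℂ)),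
        (∀ i j h, A i j h ≠ 0 → h * u j ≤ w i) →
        ((leadingMatrix w u A).rank : ℝ) ≤ m - kerDim A ∧
        ((leadingMatrix w u A).rank = min m n → kerDim A = (m : ℝ) - (min m n : ℕ)) := by
  classical
  refine ⟨?_, ?_⟩
  · intro G _ X _ _ hX m n w u A B h
    rw [kerDim_eq, kerDim_eq]
    exact mat_le hX w u A B (fun k j h' hh => h.1 k j h' (Finsupp.mem_support_iff.1 hh)) h.2.1 h.2.2
  · intro G _ _ hG m n w u A h
    have hlow : ((leadingMatrix w u A).rank : ℝ) ≤ m - kerDim A := by
      obtain ⟨f, hf1, hf2, hf3⟩ := Submodule.exists_fun_fin_finrank_span_eq ℂ
        (Set.range (leadingMatrix w u A).row)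
      have hrk := (leadingMatrix w u A).rank_eq_finrank_span_row
      choose g hg using hf1
      have hginj : Function.Injective g := by
        intro a b hab
        apply hf3.injective
        rw [← hg a, ← hg b, hab]
      let S : Finset (Fin m) := Finset.univ.image g
      have hScard : S.card = (leadingMatrix w u A).rank := by
        rw [Finset.card_image_of_injective _ hginj, Finset.card_univ, Fintype.card_fin, hrk]
      have hlin : LinearIndependent ℂ (fun (k : S) (j : Fin n) => A k j (w k * (u j)⁻¹)) := by
        have h1 : LinearIndependent ℂ ((leadingMatrix w u A).row ∘ g) := by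
          have : (leadingMatrix w u A).row ∘ g = f := funext hg
          rw [this]
          exact hf3
        let e : Fin (Module.finrank ℂ (Submodule.span ℂ (Set.range (leadingMatrix w u A).row))) ≃ S :=
          Equiv.ofBijective (fun a => ⟨g a, Finset.mem_image_of_mem g (Finset.mem_univ a)⟩)
            ⟨fun a b hab => hginj (Subtype.ext_iff.1 hab), by
              rintro ⟨k, hk⟩
              obtain ⟨a, _, ha⟩ := Finset.mem_image.1 hk
              exact ⟨a, Subtype.ext ha⟩⟩
        refine (linearIndependent_equiv e).1 ?_
        exact h1
      have h2 := rank_le hG A w u (fun k j h' hh => h k j h' (Finsupp.mem_support_iff.1 hh)) S hlin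
      rw [kerDim_eq, ← hScard]
      rw [Fintype.card_fin] at h2
      linarith
    refine ⟨hlow, fun hr => le_antisymm ?_ ?_⟩
    · rw [hr] at hlow
      linarith
    · have h3 := kerDimM_ge A
      have h4 := kerDimM_nonneg A
      rw [← kerDim_eq, Fintype.card_fin, Fintype.card_fin] at h3
      rw [← kerDim_eq] at h4
      rcases le_total m n with hmn | hmn
      · rw [min_eq_left hmn]
        linarith
      · rw [min_eq_right hmn]
        linarith

end Pool.Agent.Results.MP_95030e_al.LeadingParts
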