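import Pool.Agent.U700.NI8

set_option autoImplicit false

noncomputable section

namespace Pool.Agent.Results.MP_95030e_al.NullityAlternative

/-- The kernel of right multiplication by the matrix `A` on `ℓ²(G)^m`. -/
def kernel {G : Type} [Group G] {m n : ℕ} (A : Matrix (Fin m) (Fin n) (G →₀ ℂ)) :
    Set (lp (fun _ : Fin m × G => ℂ) 2) :=
  {x | ∀ (j : Fin n) (g : G),
    ∑ i : Fin m, (A i j).sum (fun h c => x (i, g * h⁻¹) * c) = 0}

open Classical in
/-- The von Neumann dimension of this kernel: the sum over `i` of one minus the squared distance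
from the basis vector at `(i, 1)` to the kernel, that is, the trace of the projection onto the
kernel. -/
def kerDim {G : Type} [Group G] {m n : ℕ} (A : Matrix (Fin m) (Fin n) (G →₀ ℂ)) : ℝ :=
  ∑ i : Fin m, (1 - (Metric.infDist
    (lp.single 2 (i, (1 : G)) (1 : ℂ) : lp (fun _ : Fin m × G => ℂ) 2) (kernel A)) ^ 2)

/-- `G` is torsion-free. -/
def TorsionFree (G : Type) [Group G] : Prop := ∀ g : G, ∀ n : ℕ, 0 < n → g ^ n = 1 → g = 1

/-- Normalised Hamming distance: the proportion of points where two permutations differ. -/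
def hamm {n : ℕ} (σ τ : Equiv.Perm (Fin n)) : ℝ :=
  ((Finset.univ.filter fun i => σ i ≠ τ i).card : ℝ) / n

/-- `G` is sofic. -/
def IsSofic (G : Type) [Group G] : Prop :=
  ∀ A : Finset G, (1 : G) ∈ A → ∀ ε : ℝ, 0 < ε →
    ∃ n : ℕ, 1 ≤ n ∧ ∃ φ : G → Equiv.Perm (Fin n),
      φ 1 = 1 ∧
      (∀ a ∈ A, ∀ b ∈ A, a * b ∈ A → hamm (φ (a * b)) (φ a * φ b) < ε) ∧
      ∀ a ∈ A, a ≠ 1 → 1 - ε ≤ hamm (φ a) 1

variable {X : Type} [Fintype X] [DecidableEq X]

/-- The `m × n` matrix of blocks of size `X × X` whose block at `(i, j)` is the sum over `l` of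
`c i j l` times the permutation matrix of `σ l`. -/
def blocks {m n k : ℕ} (c : Fin m → Fin n → Fin k → ℤ) (σ : Fin k → Equiv.Perm X) :
    Matrix (Fin m × X) (Fin n × X) ℂ :=
  Matrix.of fun p q => ∑ l, (c p.1 q.1 l : ℂ) * if p.2 = σ l q.2 then 1 else 0

/-- The normalised nullity of this matrix: the dimension of its kernel, that is, the number of its
columns minus its rank, divided by the number of points of `X`. -/
def nullity {m n k : ℕ} (c : Fin m → Fin n → Fin k → ℤ) (σ : Fin k → Equiv.Perm X) : ℝ :=
  ((n : ℝ) * Fintype.card X - (blocks c σ).rank) / Fintype.card X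

/-- The number of points moved by `τ`. -/
def moved (τ : Equiv.Perm X) : ℕ := (Finset.univ.filter fun x => τ x ≠ x).card

/-- The number of points fixed by `τ`. -/
def fixed (τ : Equiv.Perm X) : ℕ := (Finset.univ.filter fun x => τ x = x).card

/-- Up to the precision `1 / N`, the permutations `σ l` look like the generators of a torsion-free
group which acts freely: every word `w` of length at most `N` in them moves at most the proportion
`1 / N` of the points, or each of its powers `w ^ j`, `1 ≤ j ≤ N`, fixes at most the proportion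
`1 / N` of the points. -/
def AlmostFree {k : ℕ} (N : ℕ) (σ : Fin k → Equiv.Perm X) : Prop :=
  ∀ w : FreeGroup (Fin k), w.norm ≤ N → N * moved (FreeGroup.lift σ w) ≤ Fintype.card X ∨
    ∀ j, 1 ≤ j → j ≤ N → N * fixed (FreeGroup.lift σ (w ^ j)) ≤ Fintype.card X

open Pool.Agent Pool.Agent.U700

theorem nullity_eq {m n k : ℕ} (c : Fin m → Fin n → Fin k → ℤ) (σ : Fin k → Equiv.Perm X) :
    nullity c σ = NI.nu (FreeGroup.lift σ) (NI.Yc c) := by
  have h1 : blocks c σ = NI.Mx (FreeGroup.lift σ) (NI.Yc c) := by
    rw [NI.Mx_Yc]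
    ext p q
    simp only [blocks, Matrix.of_apply, FreeGroup.lift_apply_of]
  unfold nullity NI.nu
  rw [h1, Fintype.card_fin]

/-- **An alternative for nullities of integer combinations of permutation matrices, and the
Atiyah conjecture for torsion-free sofic groups.**

(a) The following are equivalent.

1. The Atiyah conjecture over `ℂ` holds for all torsion-free sofic groups: all kernel dimensions
   of matrices over `ℂ[G]` are integers.
2. The same for matrices over `ℤ[G]`.
3. For all integers `c i j l` and `ε > 0` there is `N` such that for all permutations `σ l` of a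
   finite set which are almost free up to `1 / N`, the normalised nullity of the matrix with blocks
   `∑ l, c i j l • P (σ l)` is within `ε` of an integer.
4. For some real number `r ≥ 0`: for all integers `c i j l` there are `ε > 0` and `N` such that for
   all permutations `σ l` of a finite set which are almost free up to `1 / N`, this normalised
   nullity differs from `r` by at least `ε`.

So either the normalised nullities are nearly integers, uniformly, or every real number `r ≥ 0`
whatsoever is a limit of such nullities, for fixed coefficients, along permutations which are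
asymptotically free.

(b) The statement 3 holds, with no hypothesis, for finite solvable groups with large prime
divisors: for all `d`, all integers `c i j l` and `ε > 0` there is `N` such that for every finite
group `F` of derived length at most `d` all of whose prime divisors are larger than `N`, and for all
elements `g l` of `F`, the normalised nullity of the matrix with blocks `∑ l, c i j l • g l` acting
on powers of the regular representation of `F` is within `ε` of an integer. -/
theorem result :
    List.TFAE [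
      ∀ (G : Type) [Group G], TorsionFree G → IsSofic G →
        ∀ (m n : ℕ) (A : Matrix (Fin m) (Fin n) (G →₀ ℂ)), ∃ z : ℤ, kerDim A = z,
      ∀ (G : Type) [Group G], TorsionFree G → IsSofic G →
        ∀ (m n : ℕ) (A : Matrix (Fin m) (Fin n) (G →₀ ℂ)), (∀ i j g, ∃ a : ℤ, A i j g = a) →
          ∃ z : ℤ, kerDim A = z,
      ∀ (m n k : ℕ) (c : Fin m → Fin n → Fin k → ℤ) (ε : ℝ), 0 < ε → ∃ N : ℕ,
        ∀ (X : Type) [Fintype X] [DecidableEq X] [Nonempty X] (σ : Fin k → Equiv.Perm X),
          AlmostFree N σ → ∃ z : ℤ, |nullity c σ - z| < ε,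
      ∃ r : ℝ, 0 ≤ r ∧ ∀ (m n k : ℕ) (c : Fin m → Fin n → Fin k → ℤ), ∃ ε : ℝ, 0 < ε ∧ ∃ N : ℕ,
        ∀ (X : Type) [Fintype X] [DecidableEq X] [Nonempty X] (σ : Fin k → Equiv.Perm X),
          AlmostFree N σ → ε ≤ |nullity c σ - r|] ∧
    ∀ (d m n k : ℕ) (c : Fin m → Fin n → Fin k → ℤ) (ε : ℝ), 0 < ε → ∃ N : ℕ,
      ∀ (F : Type) [Group F] [Fintype F] [DecidableEq F], derivedSeries F d = ⊥ →
        (∀ p : ℕ, p.Prime → p ∣ Fintype.card F → N < p) → ∀ g : Fin k → F,
          ∃ z : ℤ, |nullity c (fun l => Equiv.mulLeft (g l)) - z| < ε := by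
  refine ⟨?_, ?_⟩
  · tfae_have 1 → 2 := fun h G _ h1 h2 m n A _ => h G h1 h2 m n A
    tfae_have 2 → 3 := by
      intro h m n k c ε hε
      obtain ⟨N, hN⟩ := NI.b_of_a (fun G _ h1 h2 m n Y hY => by
        obtain ⟨m', n', A, hA, hv⟩ := W656.VA.exists_kerDim (NI.itg_val Y hY)
        obtain ⟨z, hz⟩ := h G h1 h2 m' n' A (fun i j g => by
          obtain ⟨a, ha⟩ := Subring.mem_bot.1 (hA i j g)
          exact ⟨a, ha.symm⟩)
        exact ⟨z, hv.symm.trans hz⟩) m n k c ε hε
      refine ⟨N, fun X _ _ _ σ hσ => ?_⟩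
      rw [nullity_eq]
      exact hN X σ hσ
    tfae_have 3 → 4 := by
      intro h
      refine ⟨1 / 2, by norm_num, fun m n k c => ⟨1 / 4, by norm_num, ?_⟩⟩
      obtain ⟨N, hN⟩ := h m n k c (1 / 4) (by norm_num)
      refine ⟨N, fun X _ _ _ σ hσ => ?_⟩
      obtain ⟨z, hz⟩ := hN X σ hσ
      by_contra hcon
      push Not at hcon
      rw [abs_lt] at hz hcon
      have h1 : (z : ℝ) < 1 := by linarith [hz.1, hz.2, hcon.1, hcon.2]
      have h2 : (0 : ℝ) < z := by linarith [hz.1, hz.2, hcon.1, hcon.2]
      have h3 : z < 1 := by exact_mod_cast h1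
      have h4 : 0 < z := by exact_mod_cast h2
      omega
    tfae_have 4 → 1 := by
      rintro ⟨r, hr, h⟩
      by_contra hno
      have hno' : ¬ ∀ (G : Type) [Group G], (AllOrNothing.TorsionFree G ∧ H21R2.IsSofic G) →
          ∀ (m n : ℕ) (A : Matrix (Fin m) (Fin n) (G →₀ ℂ)), ∃ z : ℤ,
            AllOrNothing.kerDim A = z := by
        intro h1
        exact hno fun G _ h2 h3 => h1 G ⟨h2, h3⟩
      obtain ⟨H, _, hH, hv⟩ := AllOrNothing.all_values NI.closed_sofic hno' r hr
      obtain ⟨m, n, Y, hY, hYr⟩ := NI.val_itg hv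
      obtain ⟨k, c, hc⟩ := NI.exists_close H hH.1 hH.2 Y hY
      obtain ⟨ε, hε, N, hN⟩ := h n m k c
      obtain ⟨X, _, _, _, σ, hσ, h1⟩ := hc ε hε N
      have h2 := hN X σ hσ
      rw [nullity_eq] at h2
      rw [hYr] at h1
      exact absurd h1 (not_lt.2 h2)
    tfae_finish
  · intro d m n k c ε hε
    obtain ⟨N, hN⟩ := NI.solv d c ε hε
    refine ⟨N, fun F _ _ _ h1 h2 g => ?_⟩
    rw [nullity_eq]
    exact hN F h1 h2 g

end Pool.Agent.Results.MP_95030e_al.NullityAlternative
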